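import Pool.Agent.Y727.PSP.Stm

/-!
# The majorant satisfies the `k`-linear forms condition for most `K`
-/

set_option autoImplicit false

namespace Pool.Agent.Y79.PSP.MK

open Finset
open Pool.Agent.H602R3.DHJ (av av_prod av_const av_mono av_nonneg av_add av_sub av_mul av_sum)
open Pool.Agent.Y727.PSP

/-! ### Fibres of homomorphisms -/

section fiber

variable {Y : Type} [AddCommGroup Y] [Fintype Y] {N : ℕ}

open Classical in
theorem card_fiber [hN : Fact N.Prime] (f : Y →+ ZMod N) {v : Y} (hv : f v ≠ 0) (c : ZMod N) :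
    (univ.filter (fun y => f y = c)).card * N ≤ Fintype.card Y := by
  have h : ((univ.filter (fun y => f y = c)) ×ˢ (univ : Finset (ZMod N))).card ≤
      (univ : Finset Y).card := by
    apply Finset.card_le_card_of_injOn (fun p => p.1 + p.2.val • v)
    · intro p _
      simp
    · rintro ⟨y, a⟩ hy ⟨y', a'⟩ hy' h
      simp only [coe_product, coe_filter, mem_univ, true_and, coe_univ, Set.mem_prod,
        Set.mem_ofPred_eq, Set.mem_univ, and_true] at hy hy' h
      have h2 := congrArg f h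
      rw [map_add, map_add, map_nsmul, map_nsmul, hy, hy', nsmul_eq_mul, nsmul_eq_mul,
        ZMod.natCast_zmod_val, ZMod.natCast_zmod_val] at h2
      have h3 : a = a' := mul_right_cancel₀ hv (add_left_cancel h2)
      subst h3
      have h4 : y = y' := add_right_cancel h
      rw [h4]
  rw [card_product, card_univ, ZMod.card, card_univ] at h
  exact h

open Classical in
theorem card_bad [hN : Fact N.Prime] {I : Type} [Fintype I] (f : I → Y →+ ZMod N)
    (hf : ∀ i j, i ≠ j → ∃ v, f i v ≠ f j v) :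
    ((univ.filter (fun y => ¬ Function.Injective (fun i => f i y))).card : ℝ) * N ≤
      (Fintype.card I : ℝ) ^ 2 * Fintype.card Y := by
  have h1 : (univ.filter (fun y => ¬ Function.Injective (fun i => f i y))) ⊆
      ((univ : Finset I).offDiag).biUnion fun p => univ.filter fun y => (f p.1 - f p.2) y = 0 := by
    intro y hy
    rw [mem_filter] at hy
    have h2 := hy.2
    simp only [Function.Injective, not_forall] at h2
    obtain ⟨i, j, hij, hne⟩ := h2
    rw [mem_biUnion]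
    refine ⟨(i, j), by simpa using hne, ?_⟩
    rw [mem_filter]
    exact ⟨mem_univ _, by simp [hij]⟩
  have h3 : (univ.filter (fun y => ¬ Function.Injective (fun i => f i y))).card * N ≤
      (Fintype.card I) ^ 2 * Fintype.card Y := by
    calc (univ.filter (fun y => ¬ Function.Injective (fun i => f i y))).card * N
        ≤ (∑ p ∈ (univ : Finset I).offDiag,
            (univ.filter fun y => (f p.1 - f p.2) y = 0).card) * N :=
          Nat.mul_le_mul_right _ ((card_le_card h1).trans card_biUnion_le)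
      _ = ∑ p ∈ (univ : Finset I).offDiag,
            (univ.filter fun y => (f p.1 - f p.2) y = 0).card * N := by rw [sum_mul]
      _ ≤ ∑ p ∈ (univ : Finset I).offDiag, Fintype.card Y := by
          apply sum_le_sum
          intro p hp
          obtain ⟨v, hv⟩ := hf p.1 p.2 (by simpa using hp)
          exact card_fiber _ (v := v) (by simpa [sub_eq_zero] using hv) 0
      _ ≤ (Fintype.card I) ^ 2 * Fintype.card Y := by
          rw [sum_const, smul_eq_mul]
          apply Nat.mul_le_mul_right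
          rw [offDiag_card, card_univ, pow_two]
          exact Nat.sub_le _ _
  exact_mod_cast h3

end fiber

/-! ### The abstract lemmas -/

/-- the properties of the majorant -/
structure Maj (ν : ℕ → ℝ) (M : ℕ) (η L : ℝ) (X W N : ℕ) : Prop where
  nonneg : ∀ n, 0 ≤ ν n
  maj : ∀ (I : Type) [Fintype I], Fintype.card I ≤ M → ∀ u : I → ℕ, Function.Injective u →
    (∀ i, 1 ≤ u i ∧ u i ≤ N) →
    |(∑ K ∈ Ioc X (2 * X), ∏ i, ν (1 + K * W * u i)) / X - 1| ≤ η
  bound : ∀ (I : Type) [Fintype I], Fintype.card I ≤ M → ∀ u : I → ℕ,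
    (∀ i, 1 ≤ u i ∧ u i ≤ N) → ∀ K ∈ Ioc X (2 * X), ∏ i, ν (1 + K * W * u i) ≤ L

theorem rp_mem {N : ℕ} [NeZero N] (a : ZMod N) : 1 ≤ rp a ∧ rp a ≤ N := by
  unfold rp
  have hN : 0 < N := Nat.pos_of_ne_zero (NeZero.ne N)
  split_ifs with h
  · exact ⟨hN, le_rfl⟩
  · refine ⟨?_, (ZMod.val_lt a).le⟩
    rcases Nat.eq_zero_or_pos a.val with h' | h'
    · exact absurd ((ZMod.val_eq_zero a).1 h') h
    · exact h'

theorem rp_inj {N : ℕ} [NeZero N] : Function.Injective (rp : ZMod N → ℕ) := by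
  intro a b h
  have h1 : ∀ a : ZMod N, ((rp a : ℕ) : ZMod N) = a := by
    intro a
    unfold rp
    split_ifs with h
    · rw [h]; simp
    · simp
  rw [← h1 a, ← h1 b, h]

variable {Y : Type} [AddCommGroup Y] [Fintype Y]

theorem av_abs_le (f : Y → ℝ) : |av f| ≤ av (fun y => |f y|) := by
  unfold av
  rw [abs_div, Nat.abs_cast]
  exact div_le_div_of_nonneg_right (abs_sum_le_sum_abs _ _) (by positivity)

theorem lemB {ν : ℕ → ℝ} {M : ℕ} {η L : ℝ} {X W N : ℕ} [NeZero N] [Fact N.Prime]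
    (h : Maj ν M η L X W N) (hL : 1 ≤ L) (hη : 0 ≤ η) (hX : 1 ≤ X) {I : Type} [Fintype I]
    (hI : Fintype.card I ≤ M) (f : I → Y →+ ZMod N) (hf : ∀ i j, i ≠ j → ∃ v, f i v ≠ f j v) :
    |(∑ K ∈ Ioc X (2 * X), av (fun y : Y => ∏ i, nuK ν N W K (f i y))) / X - 1| ≤
      η + (Fintype.card I : ℝ) ^ 2 * L / N := by
  classical
  have hX' : (0 : ℝ) < X := by exact_mod_cast hX
  have hN : (0 : ℝ) < N := by exact_mod_cast Nat.pos_of_ne_zero (NeZero.ne N)
  have hY : (0 : ℝ) < Fintype.card Y := by exact_mod_cast Fintype.card_pos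
  have hcard : (Ioc X (2 * X)).card = X := by rw [Nat.card_Ioc]; omega
  set P : Y → ℝ := fun y => (∑ K ∈ Ioc X (2 * X), ∏ i, nuK ν N W K (f i y)) / X - 1 with hP
  have h1 : (∑ K ∈ Ioc X (2 * X), av (fun y : Y => ∏ i, nuK ν N W K (f i y))) / X - 1 = av P := by
    rw [hP, av_sub, av_const, ← av_sum]
    congr 1
    simp_rw [div_eq_inv_mul]
    rw [av_mul]
  have hgood : ∀ y, Function.Injective (fun i => f i y) → |P y| ≤ η := by
    intro y hy
    exact h.maj I hI (fun i => rp (f i y)) (rp_inj.comp hy) (fun i => rp_mem _)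
  have hbad : ∀ y, |P y| ≤ L := by
    intro y
    have h2 : 0 ≤ (∑ K ∈ Ioc X (2 * X), ∏ i, nuK ν N W K (f i y)) / X :=
      div_nonneg (sum_nonneg fun K _ => prod_nonneg fun i _ => h.nonneg _) hX'.le
    have h3 : (∑ K ∈ Ioc X (2 * X), ∏ i, nuK ν N W K (f i y)) / X ≤ L := by
      rw [div_le_iff₀ hX']
      calc ∑ K ∈ Ioc X (2 * X), ∏ i, nuK ν N W K (f i y)
          ≤ ∑ K ∈ Ioc X (2 * X), L :=
            sum_le_sum fun K hK => h.bound I hI (fun i => rp (f i y)) (fun i => rp_mem _) K hK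
        _ = L * X := by rw [sum_const, hcard, nsmul_eq_mul, mul_comm]
    rw [abs_le]
    constructor <;> simp only [hP] <;> linarith
  rw [h1]
  refine (av_abs_le P).trans ?_
  have h4 : av (fun y => |P y|) ≤ av (fun y => η +
      if ¬ Function.Injective (fun i => f i y) then L else 0) := by
    apply av_mono
    intro y
    by_cases hy : Function.Injective (fun i => f i y)
    · rw [if_neg (not_not_intro hy)]
      have := hgood y hy
      linarith
    · rw [if_pos hy]
      have := hbad y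
      linarith
  refine h4.trans ?_
  rw [av_add, av_const]
  have h5 : av (fun y : Y => if ¬ Function.Injective (fun i => f i y) then L else 0) =
      ((univ.filter (fun y => ¬ Function.Injective (fun i => f i y))).card : ℝ) * L /
        Fintype.card Y := by
    unfold av
    rw [← sum_filter, sum_const, nsmul_eq_mul]
  rw [h5]
  have h6 := card_bad f hf
  have h7 : ((univ.filter (fun y => ¬ Function.Injective (fun i => f i y))).card : ℝ) * L /
        Fintype.card Y ≤ (Fintype.card I : ℝ) ^ 2 * L / N := by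
    rw [div_le_div_iff₀ hY hN]
    nlinarith
  linarith

theorem lemC {ν : ℕ → ℝ} {M : ℕ} {η L : ℝ} {X W N : ℕ} [NeZero N] [Fact N.Prime]
    (h : Maj ν M η L X W N) (hL : 1 ≤ L) (hη : 0 ≤ η) (hX : 1 ≤ X) {I : Type} [Fintype I]
    (hI : 2 * Fintype.card I ≤ M) (f : I → Y →+ ZMod N)
    (hf : ∀ i j, i ≠ j → ∃ v, f i v ≠ f j v) (hf0 : ∀ i, ∃ v, f i v ≠ 0) :
    ∑ K ∈ Ioc X (2 * X), (av (fun y : Y => ∏ i, nuK ν N W K (f i y)) - 1) ^ 2 ≤
      (3 * η + 2 * (M : ℝ) ^ 2 * L / N) * X := by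
  classical
  have hX' : (0 : ℝ) < X := by exact_mod_cast hX
  have hN : (0 : ℝ) < N := by exact_mod_cast Nat.pos_of_ne_zero (NeZero.ne N)
  have hcard : (Ioc X (2 * X)).card = X := by rw [Nat.card_Ioc]; omega
  have h1 := lemB h hL hη hX (by omega) f hf
  -- the family on `Y × Y`
  let g : I ⊕ I → Y × Y →+ ZMod N := Sum.elim (fun i => (f i).comp (AddMonoidHom.fst Y Y))
    (fun i => (f i).comp (AddMonoidHom.snd Y Y))
  have hg : ∀ i j, i ≠ j → ∃ v, g i v ≠ g j v := by
    rintro (i | i) (j | j) hij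
    · obtain ⟨v, hv⟩ := hf i j (fun h => hij (by rw [h]))
      exact ⟨(v, 0), by simpa [g] using hv⟩
    · obtain ⟨v, hv⟩ := hf0 i
      exact ⟨(v, 0), by simpa [g] using hv⟩
    · obtain ⟨v, hv⟩ := hf0 i
      exact ⟨(0, v), by simpa [g] using hv⟩
    · obtain ⟨v, hv⟩ := hf i j (fun h => hij (by rw [h]))
      exact ⟨(0, v), by simpa [g] using hv⟩
  have h2 := lemB h hL hη hX (by rw [Fintype.card_sum]; omega) g hg
  have h3 : ∀ K, av (fun y : Y × Y => ∏ i, nuK ν N W K (g i y)) =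
      (av (fun y : Y => ∏ i, nuK ν N W K (f i y))) ^ 2 := by
    intro K
    rw [av_prod]
    have h4 : ∀ x y : Y, ∏ i, nuK ν N W K (g i (x, y)) =
        (∏ i, nuK ν N W K (f i x)) * ∏ i, nuK ν N W K (f i y) := by
      intro x y
      rw [Fintype.prod_sum_type]
      rfl
    simp_rw [h4]
    simp_rw [av_mul]
    have h5 : av (fun x : Y => (∏ i, nuK ν N W K (f i x)) *
        av (fun y : Y => ∏ i, nuK ν N W K (f i y))) =
        av (fun x : Y => av (fun y : Y => ∏ i, nuK ν N W K (f i y)) *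
          ∏ i, nuK ν N W K (f i x)) := by
      congr 1
      funext x
      rw [mul_comm]
    rw [h5, av_mul, pow_two]
  simp_rw [h3] at h2
  rw [Fintype.card_sum] at h2
  set F : ℕ → ℝ := fun K => av (fun y : Y => ∏ i, nuK ν N W K (f i y)) with hF
  change |(∑ K ∈ Ioc X (2 * X), F K) / X - 1| ≤ _ at h1
  change |(∑ K ∈ Ioc X (2 * X), F K ^ 2) / X - 1| ≤ _ at h2
  change ∑ K ∈ Ioc X (2 * X), (F K - 1) ^ 2 ≤ _
  have h6 : ∑ K ∈ Ioc X (2 * X), (F K - 1) ^ 2 =
      (((∑ K ∈ Ioc X (2 * X), F K ^ 2) / X - 1) - 2 * ((∑ K ∈ Ioc X (2 * X), F K) / X - 1)) * X := by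
    have h7 : ∑ K ∈ Ioc X (2 * X), (F K - 1) ^ 2 =
        ∑ K ∈ Ioc X (2 * X), F K ^ 2 - 2 * ∑ K ∈ Ioc X (2 * X), F K + X := by
      simp_rw [sub_sq]
      rw [sum_add_distrib, sum_sub_distrib, mul_sum]
      simp only [mul_one, one_pow, sum_const, hcard, nsmul_eq_mul]
    rw [h7]
    field_simp
    ring
  rw [h6]
  apply mul_le_mul_of_nonneg_right _ hX'.le
  have h8 := (abs_le.1 h1).1
  have h9 := (abs_le.1 h2).2
  have hm : (Fintype.card I : ℝ) * 2 ≤ M := by
    have : Fintype.card I * 2 ≤ M := by omega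
    exact_mod_cast this
  have hm0 : (0 : ℝ) ≤ Fintype.card I := by positivity
  have hLN : 0 ≤ L / N := by positivity
  have h10 : (Fintype.card I : ℝ) ^ 2 * L / N ≤ (M : ℝ) ^ 2 / 4 * (L / N) := by
    rw [mul_div_assoc]
    apply mul_le_mul_of_nonneg_right _ hLN
    nlinarith
  have h11 : ((Fintype.card I + Fintype.card I : ℕ) : ℝ) ^ 2 * L / N ≤ (M : ℝ) ^ 2 * (L / N) := by
    rw [mul_div_assoc]
    apply mul_le_mul_of_nonneg_right _ hLN
    push_cast
    nlinarith
  have h12 : 2 * (M : ℝ) ^ 2 * L / N = 2 * ((M : ℝ) ^ 2 * (L / N)) := by ring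
  rw [h12]
  have h13 : 0 ≤ (M : ℝ) ^ 2 * (L / N) := by positivity
  linarith

/-! ### The linear forms -/

section forms

variable {k N : ℕ}

theorem sl_add (ω : Finset (Fin k)) (y y' : Fin k → ZMod N × ZMod N) :
    sl ω (y + y') = sl ω y + sl ω y' := by
  funext i
  unfold sl
  simp only [Pi.add_apply]
  split_ifs <;> rfl

theorem Lf_add (j : Fin k) (x x' : Fin k → ZMod N) : Lf j (x + x') = Lf j x + Lf j x' := by
  unfold Lf
  rw [← sum_add_distrib]
  exact sum_congr rfl fun i _ => by rw [Pi.add_apply, mul_add]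

/-- the linear forms as homomorphisms -/
def frm (t : Fin k × Finset (Fin k)) : (Fin k → ZMod N × ZMod N) →+ ZMod N where
  toFun y := Lf t.1 (sl t.2 y)
  map_zero' := by
    have h : sl t.2 (0 : Fin k → ZMod N × ZMod N) = 0 := by
      funext i
      unfold sl
      split_ifs <;> rfl
    rw [h]
    unfold Lf
    exact sum_eq_zero fun i _ => by rw [Pi.zero_apply, mul_zero]
  map_add' y y' := by rw [sl_add, Lf_add]

theorem Lf_single (i j : Fin k) (a : ZMod N) :
    Lf j (Pi.single i a) = (((i : ℕ) : ZMod N) - ((j : ℕ) : ZMod N)) * a := by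
  unfold Lf
  rw [sum_eq_single i]
  · rw [Pi.single_eq_same]
  · intro b _ hb
    rw [Pi.single_eq_of_ne hb, mul_zero]
  · intro h
    exact absurd (mem_univ _) h

theorem sl_single (ω : Finset (Fin k)) (i : Fin k) (a : ZMod N × ZMod N) :
    sl ω (Pi.single i a) = Pi.single i (if i ∈ ω then a.2 else a.1) := by
  funext l
  unfold sl
  by_cases h : l = i
  · subst h
    simp only [Pi.single_eq_same]
  · simp only [Pi.single_eq_of_ne h]
    split_ifs <;> rfl

theorem frm_single (t : Fin k × Finset (Fin k)) (i : Fin k) (a : ZMod N × ZMod N) :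
    frm t (Pi.single i a) = (((i : ℕ) : ZMod N) - ((t.1 : ℕ) : ZMod N)) *
      (if i ∈ t.2 then a.2 else a.1) := by
  change Lf t.1 (sl t.2 (Pi.single i a)) = _
  rw [sl_single, Lf_single]

theorem cast_ne (hkN : k ≤ N) {i j : Fin k} (hij : i ≠ j) :
    ((i : ℕ) : ZMod N) - ((j : ℕ) : ZMod N) ≠ 0 := by
  intro h
  rw [sub_eq_zero, ZMod.natCast_eq_natCast_iff'] at h
  rw [Nat.mod_eq_of_lt (i.2.trans_le hkN), Nat.mod_eq_of_lt (j.2.trans_le hkN)] at h
  exact hij (Fin.ext h)

theorem frm_sep (hkN : k ≤ N) (t t' : Fin k × Finset (Fin k)) (ht : t.1 ∉ t.2)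
    (ht' : t'.1 ∉ t'.2) (h : t ≠ t') :
    ∃ v : Fin k → ZMod N × ZMod N, frm t v ≠ frm t' v := by
  by_cases h1 : t.1 = t'.1
  · have h2 : t.2 ≠ t'.2 := fun h' => h (Prod.ext h1 h')
    have h3 : ∃ i, (i ∈ t.2 ∧ i ∉ t'.2) ∨ (i ∉ t.2 ∧ i ∈ t'.2) := by
      by_contra hc
      push Not at hc
      apply h2
      ext i
      have := hc i
      constructor
      · intro hi
        exact this.1 hi
      · intro hi
        by_contra hi'
        exact this.2 hi' hi
    obtain ⟨i, hi⟩ := h3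
    refine ⟨Pi.single i (0, 1), ?_⟩
    rw [frm_single, frm_single]
    rcases hi with ⟨hi, hi'⟩ | ⟨hi, hi'⟩
    · rw [if_pos hi, if_neg hi', mul_one, mul_zero]
      exact cast_ne hkN (fun h => ht (h ▸ hi))
    · rw [if_neg hi, if_pos hi', mul_one, mul_zero]
      exact (cast_ne hkN (i := i) (j := t'.1) (fun h => ht' (h ▸ hi'))).symm
  · refine ⟨Pi.single t.1 (1, 1), ?_⟩
    rw [frm_single, frm_single]
    simp only [ite_self, mul_one, sub_self]
    exact (cast_ne hkN h1).symm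

theorem frm_ne (hk : 2 ≤ k) (hkN : k ≤ N) (t : Fin k × Finset (Fin k)) :
    ∃ v : Fin k → ZMod N × ZMod N, frm t v ≠ 0 := by
  have : Nontrivial (Fin k) := Fin.nontrivial_iff_two_le.2 hk
  obtain ⟨i, hi⟩ := exists_ne t.1
  refine ⟨Pi.single i (1, 1), ?_⟩
  rw [frm_single]
  simp only [ite_self, mul_one]
  exact cast_ne hkN hi

end forms

/-! ### The theorem -/

open Classical in
theorem main {k : ℕ} (hk : 2 ≤ k) {ν : ℕ → ℝ} {M : ℕ} {η η' L : ℝ} {X W N : ℕ} [NeZero N]
    [Fact N.Prime] (hkN : k ≤ N) (h : Maj ν M η' L X W N) (hL : 1 ≤ L) (hη' : 0 ≤ η')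
    (hX : 1 ≤ X) (hM : 2 * (k * 2 ^ k) ≤ M) (hη : 0 < η)
    (h1 : 3 * η' + 2 * (M : ℝ) ^ 2 * L / N ≤ η ^ 2)
    (h2 : 2 ^ (k * 2 ^ k) * (3 * η' + 2 * (M : ℝ) ^ 2 * L / N) ≤ η ^ 3) :
    ∑ K ∈ Ioc X (2 * X), |av (nuK ν N W K) - 1| ≤ η * X ∧
    (((Ioc X (2 * X)).filter (fun K => ¬ LFk k N (nuK ν N W K) η)).card : ℝ) ≤ η * X := by
  have hX' : (0 : ℝ) < X := by exact_mod_cast hX
  have hcard : (Ioc X (2 * X)).card = X := by rw [Nat.card_Ioc]; omega
  have hk1 : 1 ≤ k * 2 ^ k := Nat.mul_pos (by omega) (by positivity)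
  constructor
  · have h3 := lemC h hL hη' hX (I := Unit) (by rw [Fintype.card_unit]; omega)
      (fun _ => AddMonoidHom.id (ZMod N)) (fun i j hij => absurd (Subsingleton.elim i j) hij)
      (fun _ => ⟨1, by simp⟩)
    have h4 : ∀ K, av (fun y : ZMod N => ∏ i : Unit, nuK ν N W K (AddMonoidHom.id (ZMod N) y)) =
        av (nuK ν N W K) := by
      intro K
      congr 1
      funext y
      simp
    simp_rw [h4] at h3
    have h5 : ∀ K ∈ Ioc X (2 * X), |av (nuK ν N W K) - 1| ≤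
        η / 2 + (av (nuK ν N W K) - 1) ^ 2 / (2 * η) := by
      intro K _
      set x := av (nuK ν N W K) - 1
      have h6 : η / 2 + x ^ 2 / (2 * η) = (η ^ 2 + x ^ 2) / (2 * η) := by
        field_simp
      rw [h6, le_div_iff₀ (by positivity)]
      nlinarith [sq_nonneg (|x| - η), sq_abs x]
    refine (sum_le_sum h5).trans ?_
    rw [sum_add_distrib, sum_const, hcard, nsmul_eq_mul, ← sum_div]
    have h6 : (∑ K ∈ Ioc X (2 * X), (av (nuK ν N W K) - 1) ^ 2) / (2 * η) ≤ η / 2 * X := by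
      rw [div_le_iff₀ (by positivity)]
      calc ∑ K ∈ Ioc X (2 * X), (av (nuK ν N W K) - 1) ^ 2
          ≤ (3 * η' + 2 * (M : ℝ) ^ 2 * L / N) * X := h3
        _ ≤ η ^ 2 * X := mul_le_mul_of_nonneg_right h1 hX'.le
        _ = η / 2 * X * (2 * η) := by ring
    linarith
  · -- the exceptional sets
    set TT : Finset (Finset (Fin k × Finset (Fin k))) :=
      univ.filter (fun T => ∀ t ∈ T, t.1 ∉ t.2) with hTT
    set bad : Finset (Fin k × Finset (Fin k)) → Finset ℕ := fun T =>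
      (Ioc X (2 * X)).filter (fun K => η < |av (fun y : Fin k → ZMod N × ZMod N =>
        ∏ t ∈ T, nuK ν N W K (Lf t.1 (sl t.2 y))) - 1|) with hbad
    have hsub : (Ioc X (2 * X)).filter (fun K => ¬ LFk k N (nuK ν N W K) η) ⊆
        TT.biUnion bad := by
      intro K hK
      rw [mem_filter] at hK
      have h3 := hK.2
      unfold LFk LF at h3
      push Not at h3
      obtain ⟨T, hT, h4⟩ := h3
      rw [mem_biUnion]
      exact ⟨T, by rw [hTT, mem_filter]; exact ⟨mem_univ _, hT⟩, by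
        rw [hbad, mem_filter]; exact ⟨hK.1, h4⟩⟩
    have hone : ∀ T ∈ TT, ((bad T).card : ℝ) * 2 ^ (k * 2 ^ k) ≤ η * X := by
      intro T hT
      rw [hTT, mem_filter] at hT
      have hcT : Fintype.card T ≤ k * 2 ^ k := by
        rw [Fintype.card_coe]
        refine (card_le_univ _).trans (le_of_eq ?_)
        rw [Fintype.card_prod, Fintype.card_fin, Fintype.card_finset, Fintype.card_fin]
      have h3 := lemC h hL hη' hX (I := T) (by omega)
        (fun t => (frm (t : Fin k × Finset (Fin k)) :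
          (Fin k → ZMod N × ZMod N) →+ ZMod N))
        (fun t t' htt => frm_sep hkN t t' (hT.2 t t.2) (hT.2 t' t'.2)
          (fun h => htt (Subtype.ext h)))
        (fun t => frm_ne hk hkN t)
      have h4 : ∀ K, av (fun y : Fin k → ZMod N × ZMod N => ∏ t : T, nuK ν N W K
          (frm (t : Fin k × Finset (Fin k)) y)) =
          av (fun y : Fin k → ZMod N × ZMod N =>
            ∏ t ∈ T, nuK ν N W K (Lf t.1 (sl t.2 y))) := by
        intro K
        congr 1
        funext y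
        exact prod_coe_sort T (fun t => nuK ν N W K (Lf t.1 (sl t.2 y)))
      simp_rw [h4] at h3
      have h5 : ((bad T).card : ℝ) * η ^ 2 ≤ (3 * η' + 2 * (M : ℝ) ^ 2 * L / N) * X := by
        refine le_trans ?_ h3
        calc ((bad T).card : ℝ) * η ^ 2 = ∑ K ∈ bad T, η ^ 2 := by
              rw [sum_const, nsmul_eq_mul]
          _ ≤ ∑ K ∈ bad T, (av (fun y : Fin k → ZMod N × ZMod N =>
            ∏ t ∈ T, nuK ν N W K (Lf t.1 (sl t.2 y))) - 1) ^ 2 := by
              apply sum_le_sum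
              intro K hK
              rw [hbad, mem_filter] at hK
              rw [← sq_abs (av _ - 1)]
              exact pow_le_pow_left₀ hη.le hK.2.le 2
          _ ≤ _ := sum_le_sum_of_subset_of_nonneg (filter_subset _ _)
              (fun K _ _ => sq_nonneg _)
      have h6 : ((bad T).card : ℝ) * 2 ^ (k * 2 ^ k) * η ^ 2 ≤ η * X * η ^ 2 := by
        calc ((bad T).card : ℝ) * 2 ^ (k * 2 ^ k) * η ^ 2
            = 2 ^ (k * 2 ^ k) * (((bad T).card : ℝ) * η ^ 2) := by ring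
          _ ≤ 2 ^ (k * 2 ^ k) * ((3 * η' + 2 * (M : ℝ) ^ 2 * L / N) * X) :=
              mul_le_mul_of_nonneg_left h5 (by positivity)
          _ = (2 ^ (k * 2 ^ k) * (3 * η' + 2 * (M : ℝ) ^ 2 * L / N)) * X := by ring
          _ ≤ η ^ 3 * X := mul_le_mul_of_nonneg_right h2 hX'.le
          _ = η * X * η ^ 2 := by ring
      exact le_of_mul_le_mul_right h6 (by positivity)
    have hTTc : TT.card ≤ 2 ^ (k * 2 ^ k) := by
      refine (card_le_univ _).trans (le_of_eq ?_)
      rw [Fintype.card_finset, Fintype.card_prod, Fintype.card_fin, Fintype.card_finset,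
        Fintype.card_fin]
    have h7 : (((Ioc X (2 * X)).filter (fun K => ¬ LFk k N (nuK ν N W K) η)).card : ℝ) ≤
        ∑ T ∈ TT, ((bad T).card : ℝ) := by
      have := (card_le_card hsub).trans card_biUnion_le
      exact_mod_cast this
    have h8 : (∑ T ∈ TT, ((bad T).card : ℝ)) * 2 ^ (k * 2 ^ k) ≤ η * X * 2 ^ (k * 2 ^ k) := by
      rw [sum_mul]
      calc ∑ T ∈ TT, ((bad T).card : ℝ) * 2 ^ (k * 2 ^ k) ≤ ∑ T ∈ TT, η * X := sum_le_sum hone
        _ = TT.card * (η * X) := by rw [sum_const, nsmul_eq_mul]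
        _ ≤ 2 ^ (k * 2 ^ k) * (η * X) := by
            apply mul_le_mul_of_nonneg_right _ (by positivity)
            exact_mod_cast hTTc
        _ = η * X * 2 ^ (k * 2 ^ k) := by ring
    exact h7.trans (le_of_mul_le_mul_right h8 (by positivity))

theorem large (k B' : ℕ) (A : ℝ) : ∃ X₀ : ℕ, ∀ X : ℕ, X₀ ≤ X → 4 ≤ X ∧ 1 ≤ Real.log X ∧
    (k : ℝ) ≤ Real.log X ∧ A ≤ Real.log X ^ 2 ∧ Real.log X ^ B' ≤ X := by
  have h1 : Filter.Tendsto (fun X : ℕ => Real.log X) Filter.atTop Filter.atTop :=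
    Real.tendsto_log_atTop.comp tendsto_natCast_atTop_atTop
  have h2 : ∀ᶠ X : ℕ in Filter.atTop, A ≤ Real.log X ^ 2 :=
    ((Filter.tendsto_pow_atTop (by norm_num : (2 : ℕ) ≠ 0)).comp h1).eventually_ge_atTop A
  have h3 : ∀ᶠ X : ℕ in Filter.atTop, Real.log X ^ B' ≤ X := by
    have h4 : ∀ᶠ x : ℝ in Filter.atTop, ‖Real.log x ^ B'‖ ≤ 1 * ‖id x‖ :=
      (Real.isLittleO_pow_log_id_atTop (n := B')).bound one_pos
    have h5 := tendsto_natCast_atTop_atTop (R := ℝ) |>.eventually h4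
    filter_upwards [h5] with X hX
    rw [one_mul, id, Real.norm_of_nonneg (Nat.cast_nonneg X)] at hX
    exact (le_abs_self _).trans hX
  have h6 := (Filter.eventually_ge_atTop 4).and ((h1.eventually_ge_atTop 1).and
    ((h1.eventually_ge_atTop (k : ℝ)).and (h2.and h3)))
  obtain ⟨X₀, hX₀⟩ := Filter.eventually_atTop.1 h6
  exact ⟨X₀, fun X hX => hX₀ X hX⟩

theorem mk (h : S_MAJ) : S_MK := by
  classical
  intro k hk
  set M : ℕ := 2 * (k * 2 ^ k) with hM
  obtain ⟨c, hc, H⟩ := h M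
  refine ⟨c, hc, fun η hη => ?_⟩
  set m₀ : ℝ := min (η ^ 2) (η ^ 3 / 2 ^ (k * 2 ^ k)) with hm₀
  have hm₀' : 0 < m₀ := lt_min (by positivity) (by positivity)
  obtain ⟨B₀, s₀, H⟩ := H (m₀ / 4) (by positivity)
  refine ⟨B₀, M * B₀ + 2 + (k * B₀ + 1), s₀, by omega, fun B' => ?_⟩
  obtain ⟨X₁, H⟩ := H B'
  obtain ⟨X₂, hX₂⟩ := large k B' (2 * (M : ℝ) ^ 2 / (m₀ / 4))
  refine ⟨max X₁ X₂, fun X W N _ hX hOk hNp hN => ?_⟩
  obtain ⟨hX4, hlog1, hlogk, hlogA, hlogB⟩ := hX₂ X ((le_max_right _ _).trans hX)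
  obtain ⟨ν, hν0, hνB, hνp, hν⟩ := H X W N ((le_max_left _ _).trans hX) hOk
  have hfact : Fact N.Prime := ⟨hNp⟩
  obtain ⟨hW1, hWX, hN2, hNlog, -⟩ := hOk
  have hNX : N ≤ X := by
    have : (N : ℝ) ≤ X := hNlog.trans hlogB
    exact_mod_cast this
  have hkN : k ≤ N := by
    have h1 : (k : ℝ) ≤ N := by
      refine hlogk.trans (le_trans ?_ hN)
      exact le_self_pow₀ hlog1 (by omega)
    exact_mod_cast h1
  set L : ℝ := Real.log X ^ (M * B₀) with hL
  have hL1 : 1 ≤ L := one_le_pow₀ hlog1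
  have hmaj : Maj ν M (m₀ / 4) L X W N := by
    refine ⟨hν0, ?_, ?_⟩
    · intro I _ hI u hu hu'
      have e : I ≃ Fin (Fintype.card I) := Fintype.equivFin I
      have h1 := hν (Fintype.card I) hI (u ∘ e.symm) (hu.comp e.symm.injective)
        (fun i => hu' (e.symm i))
      have h2 : ∀ K, ∏ i, ν (1 + K * W * (u ∘ e.symm) i) = ∏ i, ν (1 + K * W * u i) := by
        intro K
        exact Equiv.prod_comp e.symm (fun i => ν (1 + K * W * u i))
      simp_rw [h2] at h1
      exact h1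
    · intro I _ hI u hu K hK
      rw [mem_Ioc] at hK
      have h1 : ∀ i, ν (1 + K * W * u i) ≤ Real.log X ^ B₀ := by
        intro i
        apply hνB
        have h2 : K * W * u i ≤ (2 * X) * X * X :=
          Nat.mul_le_mul (Nat.mul_le_mul hK.2 hWX) ((hu i).2.trans hNX)
        have h3 : 1 + (2 * X) * X * X ≤ X ^ 4 := by
          have h4 : X ^ 4 = X * (X * X * X) := by ring
          have h5 : 4 * (X * X * X) ≤ X * (X * X * X) := Nat.mul_le_mul_right _ hX4
          have h6 : 1 ≤ X * X * X := Nat.mul_pos (Nat.mul_pos (by omega) (by omega)) (by omega)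
          have h7 : (2 * X) * X * X = 2 * (X * X * X) := by ring
          omega
        omega
      calc ∏ i, ν (1 + K * W * u i) ≤ ∏ _i : I, Real.log X ^ B₀ :=
            prod_le_prod (fun i _ => hν0 _) (fun i _ => h1 i)
        _ = Real.log X ^ (B₀ * Fintype.card I) := by
            rw [prod_const, card_univ, ← pow_mul]
        _ ≤ L := by
            rw [hL]
            apply pow_le_pow_right₀ hlog1
            rw [mul_comm]
            exact Nat.mul_le_mul_right _ hI
  have hNpos : (0 : ℝ) < N := by exact_mod_cast hNp.pos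
  have hsmall : 2 * (M : ℝ) ^ 2 * L / N ≤ m₀ / 4 := by
    have hlog2 : 0 < Real.log X ^ 2 := by positivity
    have h1 : L * Real.log X ^ 2 ≤ N := by
      refine le_trans ?_ hN
      rw [hL, ← pow_add]
      exact pow_le_pow_right₀ hlog1 (by omega)
    have h2 : 2 * (M : ℝ) ^ 2 ≤ m₀ / 4 * Real.log X ^ 2 := by
      rw [div_le_iff₀ (by positivity)] at hlogA
      linarith
    rw [div_le_iff₀ hNpos]
    calc 2 * (M : ℝ) ^ 2 * L ≤ m₀ / 4 * Real.log X ^ 2 * L :=
          mul_le_mul_of_nonneg_right h2 (by positivity)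
      _ = m₀ / 4 * (L * Real.log X ^ 2) := by ring
      _ ≤ m₀ / 4 * N := mul_le_mul_of_nonneg_left h1 (by positivity)
  have hδ : 3 * (m₀ / 4) + 2 * (M : ℝ) ^ 2 * L / N ≤ m₀ := by linarith
  have hmain := main hk hkN hmaj hL1 (by positivity) (by omega) le_rfl hη
    (hδ.trans (min_le_left _ _)) (by
      have h1 : m₀ ≤ η ^ 3 / 2 ^ (k * 2 ^ k) := min_le_right _ _
      rw [le_div_iff₀ (by positivity)] at h1
      calc 2 ^ (k * 2 ^ k) * (3 * (m₀ / 4) + 2 * (M : ℝ) ^ 2 * L / N) ≤ 2 ^ (k * 2 ^ k) * m₀ :=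
            mul_le_mul_of_nonneg_left hδ (by positivity)
        _ = m₀ * 2 ^ (k * 2 ^ k) := by ring
        _ ≤ η ^ 3 := h1)
  exact ⟨ν, hν0, hνB, hνp, hmain.1, hmain.2⟩

end Pool.Agent.Y79.PSP.MK
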