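import Pool.Agent.Y79.PSP.PRM
import Pool.Agent.W333.MH.FL
import Pool.Agent.W933.MH.Sum
import Pool.Agent.W505.MH.Diff
import Pool.Agent.W505.MH.BT
import Pool.Agent.W74.MH.B0
import Pool.Agent.W440.MH.B2
import Pool.Agent.W639.MH.Alg
import Pool.Agent.W215.MH.Eul
import Pool.Agent.W193.MH.Cls
import Pool.Agent.W701.MH.Abs
import Pool.Agent.W215.MH.Lin
import Pool.Agent.W803.MH.Tail
import Pool.Agent.H262R3.Lk.SWQ

/-!
# Primes `≡ 1 (mod P w u)` for a suitable `w`: with the library theorems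
-/

set_option autoImplicit false

namespace Pool.Agent.Y79.PSP.PRM

open Pool.Agent.Y727.PSP

theorem prm (h1 : S_SMO) (h2 : S_BAD) : S_PRM := by
  have hSUM := Pool.Agent.W933.MHSum.sum_
  have hFL := Pool.Agent.W333.MH.fl
  have hDIFF := Pool.Agent.W505.MH.diff hFL hSUM
  have hA0 := Pool.Agent.W505.MH.a0 hFL hSUM
  have hCLS := Pool.Agent.W193.MH.Cls.cls hSUM
  have hB0 := Pool.Agent.H262R3.Lk.b0 Pool.Agent.W505.MH.bt hSUM
  have hB2 := Pool.Agent.W440.MH.b2 hSUM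
  have hALG := Pool.Agent.H262R3.Lk.alg hSUM
  have hLIN := Pool.Agent.W215.MH.lin hSUM hDIFF hA0 hB0 hB2 hALG Pool.Agent.W215.MH.eul hCLS
    Pool.Agent.W701.MH.abs_
  have hTAIL := Pool.Agent.W803.MH.tail Pool.Agent.W505.MH.bt hSUM
  exact prm' hLIN hTAIL Pool.Agent.H262R3.Lk.swq h1 h2

end Pool.Agent.Y79.PSP.PRM
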