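import Pool.Agent.Y727.PSP.Stm
import Pool.Agent.W69.MH.Stm

/-!
# Primes `≡ 1 (mod P w u)` for a suitable `w`
-/

set_option autoImplicit false

namespace Pool.Agent.Y79.PSP.PRM

open Finset
open Pool.Agent.H262R3.Lk Pool.Agent.W69.MH
open Pool.Agent.H318R2.Cr (Rgh)
open Pool.Agent.Y727.PSP

/-! ### The random choice -/

theorem count_le {h g : ℕ} (R : Finset (Fin h × Fin g)) :
    (univ.filter (fun σ : Fin h → Fin g => ∀ x ∈ R, σ x.1 = x.2)).card * g ^ R.card ≤ g ^ h := by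
  classical
  rcases (univ.filter (fun σ : Fin h → Fin g => ∀ x ∈ R, σ x.1 = x.2)).eq_empty_or_nonempty with
    h0 | ⟨σ₀, hσ₀⟩
  · rw [h0]
    simp
  rw [mem_filter] at hσ₀
  have hσ := hσ₀.2
  set I : Finset (Fin h) := R.image Prod.fst with hI
  have hcard : I.card = R.card := by
    rw [hI]
    apply card_image_of_injOn
    intro x hx x' hx' hxx
    have h1 := hσ x hx
    have h2 := hσ x' hx'
    exact Prod.ext hxx (by rw [← h1, ← h2, hxx])
  have hsub : univ.filter (fun σ : Fin h → Fin g => ∀ x ∈ R, σ x.1 = x.2) ⊆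
      Fintype.piFinset (fun i => if i ∈ I then {σ₀ i} else univ) := by
    intro σ hσ'
    rw [mem_filter] at hσ'
    rw [Fintype.mem_piFinset]
    intro i
    split_ifs with hi
    · rw [hI, mem_image] at hi
      obtain ⟨x, hx, rfl⟩ := hi
      rw [mem_singleton, hσ'.2 x hx, hσ x hx]
    · exact mem_univ _
  have hle := card_le_card hsub
  rw [Fintype.card_piFinset] at hle
  have hprod : ∏ i, (if i ∈ I then {σ₀ i} else (univ : Finset (Fin g))).card =
      g ^ (h - I.card) := by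
    have h1 : ∀ i, (if i ∈ I then {σ₀ i} else (univ : Finset (Fin g))).card =
        if i ∈ I then 1 else g := by
      intro i
      split_ifs
      · rw [card_singleton]
      · rw [card_univ, Fintype.card_fin]
    simp_rw [h1]
    rw [prod_ite, prod_const_one, one_mul, prod_const]
    congr 1
    have h2 : (univ.filter (fun i => i ∉ I)) = Iᶜ := by
      ext i
      simp
    rw [h2, card_compl, Fintype.card_fin]
  rw [hprod] at hle
  rw [← hcard]
  have hIh : I.card ≤ h := by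
    have := card_le_univ I
    rwa [Fintype.card_fin] at this
  calc (univ.filter (fun σ : Fin h → Fin g => ∀ x ∈ R, σ x.1 = x.2)).card * g ^ I.card
      ≤ g ^ (h - I.card) * g ^ I.card := Nat.mul_le_mul_right _ hle
    _ = g ^ h := by rw [← pow_add, Nat.sub_add_cancel hIh]

theorem exists_good {h g : ℕ} (hg : 1 ≤ g) (Bd : Finset ℕ) (T : ℕ → Finset (Fin h × Fin g))
    (Bad : ℕ → Finset (Fin h × Fin g) → Prop) (δ : ℝ) (hδ : 0 ≤ δ)
    (h1 : ∀ f ∈ Bd, ∀ R ⊆ T f, Bad f R → (2 : ℝ) ^ (T f).card ≤ δ * (g : ℝ) ^ R.card)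
    (h2 : (Bd.card : ℝ) * δ < 1) :
    ∃ σ : Fin h → Fin g, ∀ f ∈ Bd, ¬ Bad f ((T f).filter (fun x => x.2 = σ x.1)) := by
  classical
  by_contra hc
  push Not at hc
  have hg' : (0 : ℝ) < g := by exact_mod_cast hg
  have hsub : (univ : Finset (Fin h → Fin g)) ⊆ Bd.biUnion fun f =>
      ((T f).powerset.filter (Bad f)).biUnion fun R =>
        univ.filter (fun σ : Fin h → Fin g => ∀ x ∈ R, σ x.1 = x.2) := by
    intro σ _
    obtain ⟨f, hf, hbad⟩ := hc σ
    rw [mem_biUnion]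
    refine ⟨f, hf, ?_⟩
    rw [mem_biUnion]
    refine ⟨(T f).filter (fun x => x.2 = σ x.1), ?_, ?_⟩
    · rw [mem_filter, mem_powerset]
      exact ⟨filter_subset _ _, hbad⟩
    · rw [mem_filter]
      refine ⟨mem_univ _, fun x hx => ?_⟩
      rw [mem_filter] at hx
      exact hx.2.symm
  have hle := card_le_card hsub
  rw [card_univ, Fintype.card_fun, Fintype.card_fin, Fintype.card_fin] at hle
  have hle2 : g ^ h ≤ ∑ f ∈ Bd, ∑ R ∈ (T f).powerset.filter (Bad f),
      (univ.filter (fun σ : Fin h → Fin g => ∀ x ∈ R, σ x.1 = x.2)).card :=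
    hle.trans (card_biUnion_le.trans (sum_le_sum fun f _ => card_biUnion_le))
  have hle3 : ((g : ℝ) ^ h) ≤ ∑ f ∈ Bd, ∑ R ∈ (T f).powerset.filter (Bad f),
      ((univ.filter (fun σ : Fin h → Fin g => ∀ x ∈ R, σ x.1 = x.2)).card : ℝ) := by
    exact_mod_cast hle2
  have hR : ∀ f ∈ Bd, ∀ R ∈ (T f).powerset.filter (Bad f),
      ((univ.filter (fun σ : Fin h → Fin g => ∀ x ∈ R, σ x.1 = x.2)).card : ℝ) ≤
        δ * (g : ℝ) ^ h / 2 ^ (T f).card := by
    intro f hf R hR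
    rw [mem_filter, mem_powerset] at hR
    have h3 : ((univ.filter (fun σ : Fin h → Fin g => ∀ x ∈ R, σ x.1 = x.2)).card : ℝ) *
        (g : ℝ) ^ R.card ≤ (g : ℝ) ^ h := by exact_mod_cast count_le R
    have h4 := h1 f hf R hR.1 hR.2
    rw [le_div_iff₀ (by positivity)]
    set N : ℝ := ((univ.filter (fun σ : Fin h → Fin g => ∀ x ∈ R, σ x.1 = x.2)).card : ℝ)
    have hN : 0 ≤ N := by positivity
    calc N * 2 ^ (T f).card ≤ N * (δ * (g : ℝ) ^ R.card) := mul_le_mul_of_nonneg_left h4 hN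
      _ = δ * (N * (g : ℝ) ^ R.card) := by ring
      _ ≤ δ * (g : ℝ) ^ h := mul_le_mul_of_nonneg_left h3 hδ
  have hf : ∀ f ∈ Bd, ∑ R ∈ (T f).powerset.filter (Bad f),
      ((univ.filter (fun σ : Fin h → Fin g => ∀ x ∈ R, σ x.1 = x.2)).card : ℝ) ≤
        δ * (g : ℝ) ^ h := by
    intro f hf
    calc ∑ R ∈ (T f).powerset.filter (Bad f),
        ((univ.filter (fun σ : Fin h → Fin g => ∀ x ∈ R, σ x.1 = x.2)).card : ℝ)
        ≤ ∑ R ∈ (T f).powerset.filter (Bad f), δ * (g : ℝ) ^ h / 2 ^ (T f).card :=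
          sum_le_sum (hR f hf)
      _ ≤ ∑ R ∈ (T f).powerset, δ * (g : ℝ) ^ h / 2 ^ (T f).card :=
          sum_le_sum_of_subset_of_nonneg (filter_subset _ _) fun _ _ _ => by positivity
      _ = δ * (g : ℝ) ^ h := by
          rw [sum_const, card_powerset, nsmul_eq_mul]
          push_cast
          field_simp
  have hfin : (g : ℝ) ^ h ≤ Bd.card * (δ * (g : ℝ) ^ h) := by
    refine hle3.trans ((sum_le_sum hf).trans (le_of_eq ?_))
    rw [sum_const, nsmul_eq_mul]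
  have hpos : (0 : ℝ) < (g : ℝ) ^ h := by positivity
  nlinarith

/-! ### Divisors of `P w u` -/

/-- the product of the chosen primes -/
def ww {h g : ℕ} (e : Fin h × Fin g → ℕ) (σ : Fin h → Fin g) : ℕ := ∏ i, e (i, σ i)

theorem ww_eq {h g : ℕ} {e : Fin h × Fin g → ℕ} (he : Function.Injective e) (σ : Fin h → Fin g) :
    ww e σ = ∏ p ∈ univ.image (fun i => e (i, σ i)), p := by
  unfold ww
  rw [prod_image]
  intro i _ j _ hij
  exact congrArg Prod.fst (he hij)

theorem ww_primeFactors {h g : ℕ} {e : Fin h × Fin g → ℕ} (he : Function.Injective e)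
    (hp : ∀ x, (e x).Prime) (σ : Fin h → Fin g) : (ww e σ).primeFactors.card = h := by
  rw [ww_eq he, Nat.primeFactors_prod, card_image_of_injective, card_univ, Fintype.card_fin]
  · intro i j hij
    exact congrArg Prod.fst (he hij)
  · intro p hp'
    rw [mem_image] at hp'
    obtain ⟨i, -, rfl⟩ := hp'
    exact hp _

theorem ww_squarefree {h g : ℕ} {e : Fin h × Fin g → ℕ} (he : Function.Injective e)
    (hp : ∀ x, (e x).Prime) (σ : Fin h → Fin g) : Squarefree (ww e σ) := by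
  unfold ww
  apply Finset.squarefree_prod_of_pairwise_isCoprime
  · intro i _ j _ hij
    have h1 : e (i, σ i) ≠ e (j, σ j) := fun h => hij (congrArg Prod.fst (he h))
    exact Nat.isCoprime_iff_coprime.2 ((Nat.coprime_primes (hp _) (hp _)).2 h1) |> fun h => by
      exact Nat.coprime_iff_isRelPrime.1 ((Nat.coprime_primes (hp _) (hp _)).2 h1)
  · intro i _
    exact (hp _).squarefree

/-- if `f` divides `P w u` then `f` is at most `P u` times the product of the chosen primes dividing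
`f` -/
theorem dvd_part1 {h g : ℕ} {e : Fin h × Fin g → ℕ} (hp : ∀ x, (e x).Prime) {y : ℕ}
    (hy : ∀ x, e x ≤ y) (σ : Fin h → Fin g) {f P u : ℕ} (hP : 1 ≤ P) (hu : 1 ≤ u)
    (hf : f ∣ P * ww e σ * u) :
    f ≤ P * u * y ^ (((univ.filter (fun x => e x ∣ f)).filter (fun x => x.2 = σ x.1)).card) := by
  classical
  -- the primes dividing `f`
  set I : Finset (Fin h) := univ.filter (fun i => e (i, σ i) ∣ f) with hI
  have h1 : ww e σ = (∏ i ∈ I, e (i, σ i)) * ∏ i ∈ Iᶜ, e (i, σ i) := by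
    unfold ww
    exact (prod_mul_prod_compl I _).symm
  have hcop : Nat.Coprime f (∏ i ∈ Iᶜ, e (i, σ i)) := by
    apply Nat.Coprime.prod_right
    intro i hi
    rw [mem_compl, hI, mem_filter] at hi
    rw [Nat.coprime_comm, (hp _).coprime_iff_not_dvd]
    exact fun h => hi ⟨mem_univ _, h⟩
  have h2 : f ∣ (P * u * ∏ i ∈ I, e (i, σ i)) * ∏ i ∈ Iᶜ, e (i, σ i) := by
    refine dvd_trans hf (dvd_of_eq ?_)
    rw [h1]
    ring
  have h3 : f ∣ P * u * ∏ i ∈ I, e (i, σ i) := hcop.dvd_of_dvd_mul_right h2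
  have hpos : 0 < P * u * ∏ i ∈ I, e (i, σ i) :=
    Nat.mul_pos (Nat.mul_pos hP hu) (prod_pos fun i _ => (hp _).pos)
  have h4 : f ≤ P * u * ∏ i ∈ I, e (i, σ i) := Nat.le_of_dvd hpos h3
  have h5 : ∏ i ∈ I, e (i, σ i) ≤ y ^ I.card := by
    rw [← prod_const]
    exact prod_le_prod' fun i _ => hy _
  have h6 : I.card = ((univ.filter (fun x => e x ∣ f)).filter (fun x => x.2 = σ x.1)).card := by
    apply card_bij (fun i _ => (i, σ i))
    · intro i hi
      rw [hI, mem_filter] at hi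
      rw [mem_filter, mem_filter]
      exact ⟨⟨mem_univ _, hi.2⟩, rfl⟩
    · intro i _ j _ hij
      exact congrArg Prod.fst hij
    · intro x hx
      rw [mem_filter, mem_filter] at hx
      refine ⟨x.1, ?_, Prod.ext rfl hx.2.symm⟩
      rw [hI, mem_filter]
      refine ⟨mem_univ _, ?_⟩
      rw [← hx.2]
      exact hx.1.2
  rw [← h6]
  exact h4.trans (Nat.mul_le_mul_left _ h5)

/-- the primes of the pool which divide `f` and are not chosen divide `P u` -/
theorem dvd_part2 {h g : ℕ} {e : Fin h × Fin g → ℕ} (he : Function.Injective e)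
    (hp : ∀ x, (e x).Prime) (σ : Fin h → Fin g) {f P u : ℕ} (hP : 1 ≤ P) (hu : 1 ≤ u)
    (hf : f ∣ P * ww e σ * u) :
    2 ^ ((univ.filter (fun x => e x ∣ f)).card -
      ((univ.filter (fun x => e x ∣ f)).filter (fun x => x.2 = σ x.1)).card) ≤ P * u := by
  classical
  set T : Finset (Fin h × Fin g) := univ.filter (fun x => e x ∣ f) with hT
  set U : Finset (Fin h × Fin g) := T.filter (fun x => ¬ x.2 = σ x.1) with hU
  have hcard : T.card - (T.filter (fun x => x.2 = σ x.1)).card = U.card := by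
    have h1 : (T.filter (fun x => x.2 = σ x.1)).card + U.card = T.card := by
      rw [hU, ← card_union_of_disjoint (disjoint_filter_filter_not T T _),
        filter_union_filter_not_eq]
    omega
  rw [hcard]
  have hdiv : ∀ x ∈ U, e x ∣ P * u := by
    intro x hx
    rw [hU, mem_filter, hT, mem_filter] at hx
    have h1 : e x ∣ P * ww e σ * u := hx.1.2.trans hf
    have hprime := (hp x).prime
    rcases hprime.dvd_or_dvd h1 with h2 | h2
    · rcases hprime.dvd_or_dvd h2 with h3 | h3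
      · exact h3.mul_right _
      · exfalso
        unfold ww at h3
        obtain ⟨i, -, hi⟩ := (hprime.dvd_finsetProd_iff _).1 h3
        have h4 : e x = e (i, σ i) := (Nat.prime_dvd_prime_iff_eq (hp x) (hp _)).1 hi
        have h5 := he h4
        apply hx.2
        rw [h5]
    · exact h2.mul_left _
  have h1 : ∏ p ∈ U.image e, p ∣ P * u := by
    apply Finset.prod_primes_dvd
    · intro p hp'
      rw [mem_image] at hp'
      obtain ⟨x, -, rfl⟩ := hp'
      exact (hp x).prime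
    · intro p hp'
      rw [mem_image] at hp'
      obtain ⟨x, hx, rfl⟩ := hp'
      exact hdiv x hx
  rw [prod_image he.injOn] at h1
  have h2 : ∏ x ∈ U, e x ≤ P * u := Nat.le_of_dvd (Nat.mul_pos hP hu) h1
  refine le_trans ?_ h2
  rw [← prod_const]
  exact prod_le_prod' fun x _ => (hp x).two_le

/-! ### Characters and conductors -/

theorem Lj_conductor {z q : ℕ} (hq : 0 < q) (hqz : q ≤ z) (χ : DirichletCharacter ℂ q) (σ : ℝ) :
    Lj z χ 0 σ = Lj z χ.primitiveCharacter 0 σ := by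
  have hfz : ∀ n, fz z χ n = fz z χ.primitiveCharacter n := by
    intro n
    unfold fz
    split_ifs with h
    · have hcop : n.Coprime q := by
        apply Nat.coprime_of_dvd
        intro p hp hpn hpQ
        exact h p hp ((Nat.le_of_dvd hq hpQ).trans hqz) hpn
      have h2 := χ.primitiveCharacter_apply_of_isCoprime (a := (n : ℤ))
        (by exact_mod_cast Nat.isCoprime_iff_coprime.2 hcop)
      simpa using h2.symm
    · rfl
  unfold Lj
  simp only [hfz]

/-- the lower bound for primes if no real character is exceptional -/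
theorem lower (hLIN : St_LIN) (hTAIL : St_TAIL) : ∃ (A c : ℝ) (K z₀ : ℕ), 1 ≤ A ∧ 0 < c ∧ 1 ≤ K ∧
    ∀ z q : ℕ, z₀ ≤ z → 1 ≤ q → q ^ 8 ≤ z → (∀ χ : DirichletCharacter ℂ q, χ ≠ 1 → χ ^ 2 = 1 →
      1 / 2 ≤ ‖Lj z χ 0 (1 / (A * Real.log z))‖) →
    c / (q.totient : ℝ) ≤ ∑ p ∈ (Ioc z (z ^ K)).filter (fun p => p.Prime ∧ p ≡ 1 [MOD q]),
      (1 : ℝ) / p := by
  obtain ⟨A, c, hA, hc, z1, h1⟩ := hLIN
  obtain ⟨K, z2, hK, h2⟩ := hTAIL A (c / 2) hA (by positivity)
  have hK0 : (0 : ℝ) < (K : ℝ) := by exact_mod_cast hK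
  refine ⟨A, c / (2 * (K : ℝ) ^ 3), K, max (max z1 z2) 3, hA, by positivity, hK, ?_⟩
  intro z q hz hq1 hq hχ
  have hz1 : z1 ≤ z := le_trans (le_trans (le_max_left _ _) (le_max_left _ _)) hz
  have hz2 : z2 ≤ z := le_trans (le_trans (le_max_right _ _) (le_max_left _ _)) hz
  have hz4 : 3 ≤ z := le_trans (le_max_right _ _) hz
  have hlog : (1 : ℝ) ≤ Real.log z := by
    rw [Real.le_log_iff_exp_le (by exact_mod_cast (by omega : 0 < z))]
    have h5 : Real.exp 1 < 2.7182818286 := Real.exp_one_lt_d9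
    have h6 : (3 : ℝ) ≤ (z : ℝ) := by exact_mod_cast hz4
    linarith
  have : NeZero q := ⟨by omega⟩
  have hlow := h1 z q 1 hz1 hq (Nat.coprime_one_left q) hχ
  have hup := h2 z q 1 hz2 hq1 hq (Nat.coprime_one_left q)
  have hphi : (0 : ℝ) < (q.totient : ℝ) := by
    exact_mod_cast Nat.totient_pos.2 hq1
  have hL3 : (0 : ℝ) < (Real.log z) ^ 3 := by positivity
  set S : ℝ := ∑ p ∈ (Ioc z (z ^ K)).filter (fun p => p.Prime ∧ p ≡ 1 [MOD q]), (1 : ℝ) / p
    with hS
  have h5 : c * (Real.log z) ^ 3 / (q.totient : ℝ) ≤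
      c / 2 * (Real.log z) ^ 3 / (q.totient : ℝ) + (K : ℝ) ^ 3 * (Real.log z) ^ 3 * S :=
    le_trans hlow hup
  have h6 : (c / 2 / (q.totient : ℝ)) * (Real.log z) ^ 3 ≤
      ((K : ℝ) ^ 3 * S) * (Real.log z) ^ 3 := by
    have e1 : c * (Real.log z) ^ 3 / (q.totient : ℝ) =
        2 * ((c / 2 / (q.totient : ℝ)) * (Real.log z) ^ 3) := by
      field_simp
    have e2 : c / 2 * (Real.log z) ^ 3 / (q.totient : ℝ) =
        (c / 2 / (q.totient : ℝ)) * (Real.log z) ^ 3 := by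
      field_simp
    rw [e1, e2] at h5
    nlinarith
  have h7 : c / 2 / (q.totient : ℝ) ≤ (K : ℝ) ^ 3 * S :=
    le_of_mul_le_mul_right h6 hL3
  have hK3 : (0 : ℝ) < (K : ℝ) ^ 3 := by positivity
  have e3 : c / (2 * (K : ℝ) ^ 3) / (q.totient : ℝ) =
      (c / 2 / (q.totient : ℝ)) / (K : ℝ) ^ 3 := by
    field_simp
  rw [e3, div_le_iff₀ hK3]
  linarith

/-! ### Asymptotic estimates -/

section asym

open Filter

theorem exists_m (m₁ : ℕ) : ∀ᶠ x : ℝ in atTop, ∃ m : ℕ, m₁ ≤ m ∧ (m : ℝ) ^ 10 ≤ x ∧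
    x ≤ ((m : ℝ) + 1) ^ 10 := by
  filter_upwards [eventually_ge_atTop ((m₁ : ℝ) ^ 10), eventually_ge_atTop 0] with x hx hx0
  have h1 : (x ^ (1 / 10 : ℝ)) ^ 10 = x := by
    rw [← Real.rpow_natCast, ← Real.rpow_mul hx0]
    norm_num
  have h0 : 0 ≤ x ^ (1 / 10 : ℝ) := Real.rpow_nonneg hx0 _
  refine ⟨⌊x ^ (1 / 10 : ℝ)⌋₊, ?_, ?_, ?_⟩
  · apply Nat.le_floor
    by_contra hc
    push Not at hc
    have := pow_lt_pow_left₀ hc h0 (by norm_num : (10 : ℕ) ≠ 0)
    rw [h1] at this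
    linarith
  · calc ((⌊x ^ (1 / 10 : ℝ)⌋₊ : ℕ) : ℝ) ^ 10 ≤ (x ^ (1 / 10 : ℝ)) ^ 10 :=
          pow_le_pow_left₀ (Nat.cast_nonneg _) (Nat.floor_le h0) 10
      _ = x := h1
  · calc x = (x ^ (1 / 10 : ℝ)) ^ 10 := h1.symm
      _ ≤ _ := pow_le_pow_left₀ h0 (Nat.lt_floor_add_one _).le 10

theorem log_small (c : ℝ) (hc : 0 < c) : ∃ m₀ : ℕ, ∀ m : ℕ, m₀ ≤ m →
    40 * Real.log m ≤ c * m := by
  have h1 : ∀ᶠ x : ℝ in atTop, ‖Real.log x‖ ≤ (c / 40) * ‖id x‖ :=
    Real.isLittleO_log_id_atTop.bound (by positivity)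
  have h2 := (tendsto_natCast_atTop_atTop (R := ℝ)).eventually h1
  obtain ⟨m₀, hm₀⟩ := eventually_atTop.1 h2
  refine ⟨m₀, fun m hm => ?_⟩
  have h3 := hm₀ m hm
  rw [id, Real.norm_of_nonneg (Nat.cast_nonneg m)] at h3
  have h4 := le_abs_self (Real.log m)
  rw [Real.norm_eq_abs] at h3
  linarith

theorem asymx (B : ℕ) : ∀ᶠ x : ℝ in atTop, x ^ 2 ≤ Real.exp x ∧ 20 * x ^ 2 ≤ Real.exp (x / 2) ∧
    16 * B * x + 8 * Real.exp (x / 2) ≤ Real.exp x := by
  have h1 : ∀ᶠ x : ℝ in atTop, ‖x ^ 2‖ ≤ 1 * ‖Real.exp x‖ :=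
    (Real.isLittleO_pow_exp_atTop (n := 2)).bound one_pos
  have h2 : ∀ᶠ x : ℝ in atTop, ‖x ^ 2‖ ≤ (1 / 80) * ‖Real.exp x‖ :=
    (Real.isLittleO_pow_exp_atTop (n := 2)).bound (by norm_num)
  have h3 := (tendsto_id.atTop_div_const (by norm_num : (0 : ℝ) < 2)).eventually h2
  filter_upwards [h1, h3, eventually_ge_atTop (16 * (B : ℝ)), eventually_ge_atTop 4] with
    x hx1 hx2 hx3 hx4
  simp only [id, norm_pow, Real.norm_eq_abs, sq_abs, abs_of_pos (Real.exp_pos _), one_mul]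
    at hx1 hx2
  have h5 : 20 * x ^ 2 ≤ Real.exp (x / 2) := by nlinarith
  refine ⟨hx1, h5, ?_⟩
  have h6 : Real.exp x = Real.exp (x / 2) * Real.exp (x / 2) := by
    rw [← Real.exp_add]; ring_nf
  rw [h6]
  have h7 : 16 * (B : ℝ) * x ≤ x ^ 2 := by nlinarith
  have h8 : 20 * 16 ≤ Real.exp (x / 2) := by nlinarith
  nlinarith

theorem asym (A c : ℝ) (hc : 0 < c) (B m₁ : ℕ) : ∃ z₁ : ℕ, ∀ z : ℕ, z₁ ≤ z → ∃ m : ℕ, m₁ ≤ m ∧
    1 < Real.log z ∧ A ≤ Real.log z ∧ (m : ℝ) ^ 20 ≤ Real.log z ∧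
    ((m : ℝ) ^ 20) ^ (m ^ 18) ≤ Real.exp (Real.sqrt (Real.log z)) ∧
    (Real.log z ^ B * Real.exp (Real.sqrt (Real.log z)) * Real.log z ^ B) ^ 8 ≤ z ∧
    ((2 * m * m ^ 18 : ℕ) : ℝ) ≤ c * (m : ℝ) ^ 20 / Real.log ((m : ℝ) ^ 20) ∧
    Real.log z ^ B * Real.exp ((m : ℝ) ^ 16) ≤ 2 ^ (m ^ 18 / 2) := by
  obtain ⟨m₀, hm₀⟩ := log_small c hc
  have htend : Tendsto (fun z : ℕ => Real.log (Real.log z)) atTop atTop :=
    Real.tendsto_log_atTop.comp (Real.tendsto_log_atTop.comp tendsto_natCast_atTop_atTop)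
  have htend1 : Tendsto (fun z : ℕ => Real.log z) atTop atTop :=
    Real.tendsto_log_atTop.comp tendsto_natCast_atTop_atTop
  have hev := (htend.eventually (exists_m (max (max m₁ m₀) (max 1024 B)))).and
    ((htend.eventually (asymx B)).and ((htend1.eventually_gt_atTop 1).and
      ((htend1.eventually_ge_atTop A).and (eventually_ge_atTop 1))))
  obtain ⟨z₁, hz₁⟩ := eventually_atTop.1 hev
  refine ⟨z₁, fun z hz => ?_⟩
  obtain ⟨⟨m, hm, hm10, hm10'⟩, ⟨hx1, hx2, hx3⟩, hl1, hlA, hz1⟩ := hz₁ z hz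
  set x := Real.log (Real.log z) with hx
  have hl0 : 0 < Real.log z := by linarith
  have hexp : Real.exp x = Real.log z := Real.exp_log hl0
  have hsqrt : Real.sqrt (Real.log z) = Real.exp (x / 2) := by
    rw [← hexp, Real.exp_half]
  have hm1 : m₁ ≤ m := ((le_max_left _ _).trans (le_max_left _ _)).trans hm
  have hm0 : m₀ ≤ m := ((le_max_right _ _).trans (le_max_left _ _)).trans hm
  have hm1024 : 1024 ≤ m := ((le_max_left _ _).trans (le_max_right _ _)).trans hm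
  have hmB : B ≤ m := ((le_max_right _ _).trans (le_max_right _ _)).trans hm
  have hmr : (1024 : ℝ) ≤ m := by exact_mod_cast hm1024
  have hmBr : (B : ℝ) ≤ m := by exact_mod_cast hmB
  have hx0 : 0 ≤ x := le_trans (by positivity) hm10
  have hm20 : (m : ℝ) ^ 20 ≤ x ^ 2 := by
    calc (m : ℝ) ^ 20 = ((m : ℝ) ^ 10) ^ 2 := by ring
      _ ≤ x ^ 2 := pow_le_pow_left₀ (by positivity) hm10 2
  refine ⟨m, hm1, hl1, hlA, ?_, ?_, ?_, ?_, ?_⟩
  · rw [← hexp]; linarith
  · rw [hsqrt]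
    have h1 : (m : ℝ) ≤ Real.exp m := by linarith [Real.add_one_le_exp (m : ℝ)]
    calc ((m : ℝ) ^ 20) ^ (m ^ 18) = (m : ℝ) ^ (20 * m ^ 18) := by rw [← pow_mul]
      _ ≤ (Real.exp m) ^ (20 * m ^ 18) := pow_le_pow_left₀ (by positivity) h1 _
      _ = Real.exp (20 * (m : ℝ) ^ 19) := by
          rw [← Real.exp_nat_mul]
          congr 1
          push_cast
          ring
      _ ≤ Real.exp (Real.exp (x / 2)) := by
          apply Real.exp_le_exp.2
          refine le_trans ?_ hx2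
          have h2 : (m : ℝ) ^ 19 ≤ (m : ℝ) ^ 20 := pow_le_pow_right₀ (by linarith) (by norm_num)
          linarith
  · rw [hsqrt, ← hexp]
    have hz0 : (0 : ℝ) < z := by exact_mod_cast hz1
    calc (Real.exp x ^ B * Real.exp (Real.exp (x / 2)) * Real.exp x ^ B) ^ 8
        = Real.exp (16 * B * x + 8 * Real.exp (x / 2)) := by
          rw [← Real.exp_nat_mul, ← Real.exp_add, ← Real.exp_add, ← Real.exp_nat_mul]
          congr 1
          push_cast
          ring
      _ ≤ Real.exp (Real.exp x) := Real.exp_le_exp.2 hx3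
      _ = z := by rw [hexp, Real.exp_log hz0]
  · have h1 := hm₀ m hm0
    have hlogm : 0 < Real.log m := Real.log_pos (by linarith)
    rw [Real.log_pow, le_div_iff₀ (by positivity)]
    push_cast
    have h2 : 2 * (m : ℝ) * (m : ℝ) ^ 18 * (20 * Real.log m) =
        (m : ℝ) ^ 19 * (40 * Real.log m) := by ring
    have h3 : c * (m : ℝ) ^ 20 = (m : ℝ) ^ 19 * (c * m) := by ring
    rw [h2, h3]
    exact mul_le_mul_of_nonneg_left h1 (by positivity)
  · have h1 : x ≤ (m : ℝ) ^ 11 := by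
      refine hm10'.trans ?_
      calc ((m : ℝ) + 1) ^ 10 ≤ (2 * (m : ℝ)) ^ 10 :=
            pow_le_pow_left₀ (by positivity) (by linarith) 10
        _ = 1024 * (m : ℝ) ^ 10 := by ring
        _ ≤ m * (m : ℝ) ^ 10 := mul_le_mul_of_nonneg_right hmr (by positivity)
        _ = (m : ℝ) ^ 11 := by ring
    have h2 : (B : ℝ) * x ≤ (m : ℝ) ^ 16 := by
      calc (B : ℝ) * x ≤ m * (m : ℝ) ^ 11 := mul_le_mul hmBr h1 hx0 (by positivity)
        _ = (m : ℝ) ^ 12 := by ring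
        _ ≤ (m : ℝ) ^ 16 := pow_le_pow_right₀ (by linarith) (by norm_num)
    have h3 : (2 : ℝ) * (m : ℝ) ^ 16 ≤ ((m ^ 18 / 2 : ℕ) : ℝ) * (1 / 2) := by
      have h4 : m ^ 18 ≤ 2 * (m ^ 18 / 2) + 1 := by omega
      have h5 : (m : ℝ) ^ 18 ≤ 2 * ((m ^ 18 / 2 : ℕ) : ℝ) + 1 := by exact_mod_cast h4
      have h6 : (m : ℝ) ^ 18 = (m : ℝ) ^ 2 * (m : ℝ) ^ 16 := by ring
      have h7 : (1 : ℝ) ≤ (m : ℝ) ^ 16 := one_le_pow₀ (by linarith)
      have h8 : (9 : ℝ) * (m : ℝ) ^ 16 ≤ (m : ℝ) ^ 2 * (m : ℝ) ^ 16 :=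
        mul_le_mul_of_nonneg_right (by nlinarith) (by positivity)
      linarith
    have h4 : Real.exp (1 / 2) ≤ 2 := by
      rw [← Real.le_log_iff_exp_le (by norm_num)]
      linarith [Real.log_two_gt_d9]
    calc Real.log z ^ B * Real.exp ((m : ℝ) ^ 16)
        = Real.exp (B * x + (m : ℝ) ^ 16) := by
          rw [← hexp, ← Real.exp_nat_mul, ← Real.exp_add]
      _ ≤ Real.exp (((m ^ 18 / 2 : ℕ) : ℝ) * (1 / 2)) := Real.exp_le_exp.2 (by linarith)
      _ = Real.exp (1 / 2) ^ (m ^ 18 / 2) := by rw [← Real.exp_nat_mul]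
      _ ≤ 2 ^ (m ^ 18 / 2) := pow_le_pow_left₀ (Real.exp_pos _).le h4 _

end asym

/-! ### The theorem -/

theorem prm' (hLIN : St_LIN) (hTAIL : St_TAIL) (hSWQ : St_SWQ) (h1 : S_SMO) (h2 : S_BAD) :
    S_PRM := by
  classical
  obtain ⟨A, c, K, z₀, hA, hc, hK, hlow⟩ := lower hLIN hTAIL
  obtain ⟨cS, hcS, y₀, hS⟩ := h1
  obtain ⟨E, zB, hBAD⟩ := h2
  refine ⟨K, c, hK, hc, fun B => ?_⟩
  set B₃ := 2 * B + E + 1 with hB₃
  set B₁ := 2 * B + 20 * B₃ with hB₁
  obtain ⟨zW, hSW⟩ := hSWQ B₁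
  obtain ⟨zA, hzA⟩ := asym A cS hcS B (max y₀ 2)
  refine ⟨max (max z₀ zB) (max zW zA), fun z hz => ?_⟩
  have hz₀ : z₀ ≤ z := ((le_max_left _ _).trans (le_max_left _ _)).trans hz
  have hzB : zB ≤ z := ((le_max_right _ _).trans (le_max_left _ _)).trans hz
  have hzW : zW ≤ z := ((le_max_left _ _).trans (le_max_right _ _)).trans hz
  obtain ⟨m, hm, hl1, hlA, hml, hw, hq8, hcard, hΛ⟩ :=
    hzA z (((le_max_right _ _).trans (le_max_right _ _)).trans hz)
  set ℓ : ℝ := Real.log z with hℓ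
  have hl0 : 0 < ℓ := by linarith
  have hm2 : 2 ≤ m := (le_max_right _ _).trans hm
  have hmy : y₀ ≤ m ^ 20 := ((le_max_left _ _).trans hm).trans (Nat.le_self_pow (by norm_num) m)
  have hmr : (2 : ℝ) ≤ m := by exact_mod_cast hm2
  obtain ⟨Ps, Λ, hPs, hPsc, hΛ1, hΛy⟩ := hS (m ^ 20) hmy
  -- the pool of primes
  have hcard2 : 2 * m * m ^ 18 ≤ Ps.card := by
    have h3 : ((2 * m * m ^ 18 : ℕ) : ℝ) ≤ Ps.card := by
      refine hcard.trans ?_
      push_cast at hPsc
      exact hPsc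
    exact_mod_cast h3
  have hemb : Nonempty (Fin (m ^ 18) × Fin (2 * m) ↪ Ps) := by
    apply Function.Embedding.nonempty_of_card_le
    rw [Fintype.card_prod, Fintype.card_fin, Fintype.card_fin, Fintype.card_coe]
    linarith
  obtain ⟨emb⟩ := hemb
  set e : Fin (m ^ 18) × Fin (2 * m) → ℕ := fun x => (emb x : ℕ) with he
  have hinj : Function.Injective e := fun x y hxy => emb.injective (Subtype.ext hxy)
  have hprime : ∀ x, (e x).Prime := fun x => (hPs _ (emb x).2).1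
  have hle : ∀ x, e x ≤ m ^ 20 := fun x => (hPs _ (emb x).2).2.1
  have hdvd : ∀ x, (e x - 1) ∣ Λ := fun x => (hPs _ (emb x).2).2.2
  -- the bad conductors
  set s : ℝ := 1 / (A * ℓ) with hs
  have hs0 : 0 < s := by positivity
  have hs1 : s ≤ 1 := by
    rw [hs, div_le_one (by positivity)]
    nlinarith
  have hs2 : 1 / ℓ ^ 2 ≤ s := by
    rw [hs]
    apply one_div_le_one_div_of_le (by positivity)
    rw [pow_two]
    exact mul_le_mul_of_nonneg_right hlA hl0.le
  set Q : ℕ := Nat.sqrt (Nat.sqrt z) with hQ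
  have hQ4 : Q ^ 4 ≤ z := by
    have h3 : Q * Q ≤ Nat.sqrt z := Nat.sqrt_le _
    have h4 : Nat.sqrt z * Nat.sqrt z ≤ z := Nat.sqrt_le _
    calc Q ^ 4 = (Q * Q) * (Q * Q) := by ring
      _ ≤ Nat.sqrt z * Nat.sqrt z := Nat.mul_le_mul h3 h3
      _ ≤ z := h4
  have hBd := hBAD z hzB s hs2 hs1 Q hQ4
  set Bd : Finset ℕ := (Icc 2 Q).filter (fun f => ∃ χ : DirichletCharacter ℂ f,
    χ.IsPrimitive ∧ ‖Lj z χ 0 s‖ < 1 / 2) with hBddef
  set T : ℕ → Finset (Fin (m ^ 18) × Fin (2 * m)) := fun f => univ.filter (fun x => e x ∣ f)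
    with hT
  set Bad : ℕ → Finset (Fin (m ^ 18) × Fin (2 * m)) → Prop := fun f R =>
    ℓ ^ (20 * B₃) < ((m : ℝ) ^ 20) ^ R.card ∧ (2 : ℝ) ^ ((T f).card - R.card) ≤ ℓ ^ (2 * B)
    with hBad
  obtain ⟨σ, hσ⟩ := exists_good (h := m ^ 18) (g := 2 * m) (by omega) Bd T Bad (1 / ℓ ^ (E + 1))
    (by positivity) (by
      rintro f hf R hR ⟨hb1, hb2⟩
      have hRT : R.card ≤ (T f).card := card_le_card hR
      have h3 : ℓ ^ B₃ < (m : ℝ) ^ R.card := by
        by_contra hcon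
        push Not at hcon
        have h4 := pow_le_pow_left₀ (by positivity) hcon 20
        rw [← pow_mul, ← pow_mul, mul_comm R.card, pow_mul, mul_comm B₃] at h4
        linarith
      have h5 : (2 : ℝ) ^ (T f).card = 2 ^ ((T f).card - R.card) * 2 ^ R.card := by
        rw [← pow_add, Nat.sub_add_cancel hRT]
      have h6 : ℓ ^ (2 * B) * ℓ ^ (E + 1) ≤ (m : ℝ) ^ R.card := by
        rw [← pow_add]
        have : 2 * B + (E + 1) = B₃ := by omega
        rw [this]
        exact h3.le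
      rw [h5, one_div_mul_eq_div, le_div_iff₀ (by positivity)]
      push_cast
      rw [mul_pow]
      calc (2 : ℝ) ^ ((T f).card - R.card) * 2 ^ R.card * ℓ ^ (E + 1)
          ≤ ℓ ^ (2 * B) * 2 ^ R.card * ℓ ^ (E + 1) := by gcongr
        _ = 2 ^ R.card * (ℓ ^ (2 * B) * ℓ ^ (E + 1)) := by ring
        _ ≤ 2 ^ R.card * (m : ℝ) ^ R.card := mul_le_mul_of_nonneg_left h6 (by positivity))
    (by
      rw [mul_one_div, div_lt_one (by positivity), pow_succ]
      have h3 : 0 < ℓ ^ E := by positivity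
      nlinarith)
  have hww1 : 1 ≤ ww e σ := Nat.pos_of_ne_zero (ww_squarefree hinj hprime σ).ne_zero
  have hwwle : (ww e σ : ℝ) ≤ Real.exp (Real.sqrt ℓ) := by
    refine le_trans ?_ hw
    have h3 : ww e σ ≤ (m ^ 20) ^ (m ^ 18) := by
      unfold ww
      calc ∏ i, e (i, σ i) ≤ ∏ _i : Fin (m ^ 18), m ^ 20 := prod_le_prod' fun i _ => hle _
        _ = (m ^ 20) ^ (m ^ 18) := by rw [prod_const, card_univ, Fintype.card_fin]
    exact_mod_cast h3
  refine ⟨ww e σ, Λ, ww_squarefree hinj hprime σ, hΛ1, ?_, hwwle, ?_, ?_⟩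
  · intro p hp hpw
    unfold ww at hpw
    obtain ⟨i, -, hi⟩ := (hp.prime.dvd_finsetProd_iff _).1 hpw
    have h4 : p = e (i, σ i) := (Nat.prime_dvd_prime_iff_eq hp (hprime _)).1 hi
    rw [h4]
    refine ⟨hdvd _, le_trans ?_ hml⟩
    exact_mod_cast hle (i, σ i)
  · rw [ww_primeFactors hinj hprime]
    refine le_trans ?_ hΛ
    apply mul_le_mul_of_nonneg_left _ (by positivity)
    have hΛ0 : (0 : ℝ) < Λ := by exact_mod_cast hΛ1
    rw [← Real.exp_log hΛ0]
    apply Real.exp_le_exp.2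
    refine hΛy.trans (le_of_eq ?_)
    push_cast
    rw [← Real.rpow_natCast, ← Real.rpow_mul (by positivity), ← Real.rpow_natCast]
    norm_num
  · intro P u hP hu hPl hul
    set q : ℕ := P * ww e σ * u with hq
    have hq1 : 1 ≤ q := Nat.mul_pos (Nat.mul_pos hP hww1) hu
    have hqz8 : q ^ 8 ≤ z := by
      have h3 : (q : ℝ) ≤ ℓ ^ B * Real.exp (Real.sqrt ℓ) * ℓ ^ B := by
        rw [hq]
        push_cast
        gcongr
      have h4 : ((q : ℝ)) ^ 8 ≤ z := (pow_le_pow_left₀ (by positivity) h3 8).trans hq8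
      exact_mod_cast h4
    have hqz : q ≤ z := (Nat.le_self_pow (by norm_num) q).trans hqz8
    have hPu : (P : ℝ) * u ≤ ℓ ^ (2 * B) := by
      rw [two_mul, pow_add]
      exact mul_le_mul hPl hul (by positivity) (by positivity)
    apply hlow z q hz₀ hq1 hqz8
    intro χ hχ1 hχ2
    rw [← hℓ, ← hs, Lj_conductor hq1 hqz χ]
    by_contra hlt
    push Not at hlt
    have : NeZero q := ⟨by omega⟩
    have hc0 : χ.conductor ≠ 0 := χ.conductor_ne_zero
    have hc1 : χ.conductor ≠ 1 := fun h => hχ1 (χ.eq_one_iff_conductor_eq_one.2 h)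
    have hcq : χ.conductor ∣ q := χ.conductor_dvd_level
    have hcle : χ.conductor ≤ q := Nat.le_of_dvd hq1 hcq
    by_cases hf : (χ.conductor : ℝ) ≤ ℓ ^ B₁
    · have h5 := hSW z hzW χ.conductor (by omega) hf χ.primitiveCharacter
        χ.primitiveCharacter_isPrimitive s hs0 hs1
      linarith
    · push Not at hf
      have hmem : χ.conductor ∈ Bd := by
        rw [hBddef, mem_filter, mem_Icc]
        refine ⟨⟨by omega, ?_⟩, χ.primitiveCharacter, χ.primitiveCharacter_isPrimitive, hlt⟩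
        rw [hQ, Nat.le_sqrt, Nat.le_sqrt]
        calc χ.conductor * χ.conductor * (χ.conductor * χ.conductor)
            ≤ q * q * (q * q) := Nat.mul_le_mul (Nat.mul_le_mul hcle hcle) (Nat.mul_le_mul hcle hcle)
          _ = q ^ 4 := by ring
          _ ≤ q ^ 8 := Nat.pow_le_pow_right hq1 (by norm_num)
          _ ≤ z := hqz8
      apply hσ _ hmem
      constructor
      · have h5 := dvd_part1 hprime hle σ hP hu hcq
        have h6 : (χ.conductor : ℝ) ≤ ℓ ^ (2 * B) * ((m : ℝ) ^ 20) ^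
            (((T χ.conductor).filter (fun x => x.2 = σ x.1)).card) := by
          calc (χ.conductor : ℝ) ≤ ((P * u * (m ^ 20) ^
              (((univ.filter (fun x => e x ∣ χ.conductor)).filter
                (fun x => x.2 = σ x.1)).card) : ℕ) : ℝ) := by exact_mod_cast h5
            _ = (P : ℝ) * u * ((m : ℝ) ^ 20) ^
              (((T χ.conductor).filter (fun x => x.2 = σ x.1)).card) := by push_cast; rfl
            _ ≤ _ := mul_le_mul_of_nonneg_right hPu (by positivity)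
        have h7 : ℓ ^ (2 * B) * ℓ ^ (20 * B₃) < ℓ ^ (2 * B) * ((m : ℝ) ^ 20) ^
            (((T χ.conductor).filter (fun x => x.2 = σ x.1)).card) := by
          rw [← pow_add]
          exact hf.trans_le h6
        exact lt_of_mul_lt_mul_left h7 (by positivity)
      · have h5 := dvd_part2 hinj hprime σ hP hu hcq
        refine le_trans ?_ hPu
        exact_mod_cast h5

end Pool.Agent.Y79.PSP.PRM
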